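import Mathlib
import Pool.Agent.H14.Lind2

set_option autoImplicit false
open Finset Matrix Complex MeasureTheory Pool.Agent.H14.Lind
open scoped ComplexOrder

namespace Pool.Agent.Results.MP_4e5d1f_mp.Contract

variable {d m : ℕ}

open Classical in
/-- The trace norm of a Hermitian matrix: the sum of the moduli of its eigenvalues. -/
noncomputable def tn (X : Mat d) : ℝ := if h : X.IsHermitian then ∑ i, |h.eigenvalues i| else 0

/-- Density matrices. -/
def IsState (ρ : Mat d) : Prop := ρ.PosSemidef ∧ ρ.trace = 1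

/-- A Hermitian, locally bounded drive. -/
def Drive (H : ℝ → Mat d) : Prop :=
  (∀ t, (H t).IsHermitian) ∧ ∀ T : ℝ, ∃ B : ℝ, ∀ t, 0 ≤ t → t ≤ T → ∀ i j, ‖H t i j‖ ≤ B

/-- `X` solves the master equation on `[s, ∞)` in integral (Caratheodory) form. -/
def Sol (H : ℝ → Mat d) (L : Fin m → Mat d) (s : ℝ) (X : ℝ → Mat d) : Prop :=
  ContinuousOn X (Set.Ici s) ∧ ∀ t, s ≤ t → ∀ i j,
    IntervalIntegrable (fun u => Lind (H u) L (X u) i j) volume s t ∧
    X t i j = X s i j + ∫ u in s..t, Lind (H u) L (X u) i j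

lemma lind_add (H : Mat d) (L : Fin m → Mat d) (X Y : Mat d) :
    Lind H L (X + Y) = Lind H L X + Lind H L Y := by
  simp only [Lind, Dis, mul_add, add_mul, smul_add, smul_sub, sum_sub_distrib, sum_add_distrib]
  abel

lemma lind_smul (H : Mat d) (L : Fin m → Mat d) (z : ℂ) (X : Mat d) :
    Lind H L (z • X) = z • Lind H L X := by
  simp only [Lind, Dis, Matrix.mul_smul, Matrix.smul_mul, smul_add, smul_sub, smul_sum, smul_comm z]

lemma lind_ct (H : Mat d) (hH : H.IsHermitian) (L : Fin m → Mat d) (X : Mat d) :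
    Lind H L Xᴴ = (Lind H L X)ᴴ := by
  simp only [Lind, Dis, conjTranspose_add, conjTranspose_smul, conjTranspose_sub, conjTranspose_mul,
    conjTranspose_sum, conjTranspose_conjTranspose, hH.eq, Matrix.mul_assoc, star_neg,
    RCLike.star_def, conj_I, map_div₀, map_one, map_ofNat, neg_neg]
  congr 1
  · rw [neg_smul, ← smul_neg, neg_sub]
  · exact sum_congr rfl fun j _ => by rw [add_comm]

lemma lind_tr (H : Mat d) (L : Fin m → Mat d) (X : Mat d) : (Lind H L X).trace = 0 := by
  simp only [Lind, Dis, trace_add, trace_smul, trace_sub, trace_sum, trace_mul_comm H X, sub_self,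
    smul_zero, zero_add]
  refine sum_eq_zero fun j _ => ?_
  rw [trace_mul_cycle, trace_mul_comm X, smul_eq_mul]; ring

lemma Sol.comb {H : ℝ → Mat d} {L : Fin m → Mat d} {s : ℝ} {X Y : ℝ → Mat d} (hX : Sol H L s X)
    (hY : Sol H L s Y) (a b : ℂ) : Sol H L s fun t => a • X t + b • Y t := by
  refine ⟨(hX.1.const_smul a).add (hY.1.const_smul b), fun t ht i j => ?_⟩
  obtain ⟨x1, x2⟩ := hX.2 t ht i j
  obtain ⟨y1, y2⟩ := hY.2 t ht i j
  simp only [lind_add, lind_smul, Matrix.add_apply, Matrix.smul_apply, smul_eq_mul]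
  refine ⟨(x1.const_mul a).add (y1.const_mul b), ?_⟩
  rw [intervalIntegral.integral_add (x1.const_mul a) (y1.const_mul b),
    intervalIntegral.integral_const_mul, intervalIntegral.integral_const_mul, x2, y2]
  ring

lemma Sol.ct {H : ℝ → Mat d} (hH : ∀ t, (H t).IsHermitian) {L : Fin m → Mat d} {s : ℝ}
    {X : ℝ → Mat d} (hX : Sol H L s X) : Sol H L s fun t => (X t)ᴴ := by
  refine ⟨(continuous_id.matrix_conjTranspose).comp_continuousOn hX.1, fun t ht i j => ?_⟩
  obtain ⟨x1, x2⟩ := hX.2 t ht j i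
  simp only [lind_ct _ (hH _), conjTranspose_apply]
  refine ⟨⟨(conjCLE : ℂ →L[ℝ] ℂ).integrable_comp x1.1, (conjCLE : ℂ →L[ℝ] ℂ).integrable_comp x1.2⟩, ?_⟩
  rw [x2, star_add]
  congr 1
  exact ((conjCLE : ℂ →L[ℝ] ℂ).intervalIntegral_comp_comm x1).symm

lemma Sol.tr {H : ℝ → Mat d} {L : Fin m → Mat d} {s : ℝ} {X : ℝ → Mat d} (hX : Sol H L s X)
    (A : Mat d) (a b : ℝ) (ha : s ≤ a) (hab : a ≤ b) :
    IntervalIntegrable (fun u => (A * Lind (H u) L (X u)).trace.re) volume a b ∧
    (A * X b).trace.re - (A * X a).trace.re = ∫ u in a..b, (A * Lind (H u) L (X u)).trace.re := by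
  have i1 : ∀ i j, IntervalIntegrable (fun u => Lind (H u) L (X u) i j) volume a b := fun i j =>
    (hX.2 a ha i j).1.symm.trans (hX.2 b (ha.trans hab) i j).1
  have e1 : ∀ i j, X b i j - X a i j = ∫ u in a..b, Lind (H u) L (X u) i j := fun i j => by
    rw [(hX.2 b (ha.trans hab) i j).2, (hX.2 a ha i j).2, add_sub_add_left_eq_sub,
      intervalIntegral.integral_interval_sub_left (hX.2 b (ha.trans hab) i j).1 (hX.2 a ha i j).1]
  have e : ∀ Y : Mat d, (A * Y).trace = ∑ p : Fin d × Fin d, A p.1 p.2 * Y p.2 p.1 := fun Y => by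
    simp [trace, mul_apply, Fintype.sum_prod_type]
  have i2 : IntervalIntegrable (fun u => (A * Lind (H u) L (X u)).trace) volume a b := by
    simp only [e]
    have := IntervalIntegrable.sum (univ : Finset (Fin d × Fin d))
      fun p _ => (i1 p.2 p.1).const_mul (A p.1 p.2)
    rwa [Finset.sum_fn] at this
  refine ⟨⟨reCLM.integrable_comp i2.1, reCLM.integrable_comp i2.2⟩, ?_⟩
  have := reCLM.intervalIntegral_comp_comm i2
  simp only [reCLM_apply] at this
  rw [this, ← sub_re]
  congr 1
  simp only [e]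
  rw [intervalIntegral.integral_finsetSum fun p _ => (i1 p.2 p.1).const_mul (A p.1 p.2),
    ← sum_sub_distrib]
  exact sum_congr rfl fun p _ => by rw [intervalIntegral.integral_const_mul, ← e1, mul_sub]

lemma main (L : Fin m → Mat d) (hL : Algebra.adjoin ℂ (Set.range L) = ⊤) : ∃ K γ : ℝ, 0 < K ∧ 0 < γ ∧
    ∀ H : ℝ → Mat d, Drive H → ∀ s, 0 ≤ s → ∀ X : ℝ → Mat d, Sol H L s X →
      (∀ t, s ≤ t → (X t).IsHermitian) → (X s).trace.re = 0 →
      ∀ t, s ≤ t → tn (X t) ≤ K * Real.exp (-γ * (t - s)) * tn (X s) := by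
  obtain ⟨c, r, hc, hr, hN⟩ := consts L hL
  set B := ∑ i : Fin d, bw r i with hB
  have B0 : 0 ≤ B := sum_nonneg fun i _ => by linarith [bw_ge hr i]
  refine ⟨2 * (B + 1), c / (B + 1) / 2, by positivity, by positivity, fun H hH s hs X hX hh h0 t ht => ?_⟩
  choose U l hU hl hc' hs' using fun u : ℝ => diag_sorted (X (max u s)) (hh _ (le_max_right u s))
  have xe : ∀ u, s ≤ u → X u = cj (U u) (l u) := fun u hu => by rw [← hc' u, max_eq_left hu]
  have te : ∀ u, s ≤ u → tn (X u) = ∑ i, |l u i| := fun u hu => by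
    rw [hs' u, tn, dif_pos (hh u hu)]
    simp only [max_eq_left hu]
  have z : ∀ u, s ≤ u → ∑ i, l u i = 0 := fun u hu => by
    have := (hX.tr 1 s u le_rfl hu).2
    simp only [Matrix.one_mul, lind_tr, zero_re, intervalIntegral.integral_zero, h0, sub_zero] at this
    rwa [xe u hu, cj_tr (hU u), ofReal_re] at this
  have F0 : ∀ u, 0 ≤ F r (l u) := fun u => sum_nonneg fun i _ =>
    mul_nonneg (by linarith [bw_ge hr i]) (le_max_right _ _)
  have g := gron (fun u => F r (l u)) (c / (B + 1)) s t (by positivity) ht F0 fun ε hε => by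
    obtain ⟨BH, hBH⟩ := hH.2 t
    obtain ⟨δ, hδ, hu⟩ := unif L (max B BH) ε hε
    set X' : ℝ → Fin d → Fin d → ℂ := fun u i j => X u i j with hX'
    have cX : ContinuousOn X' (Set.Icc s t) := hX.1.mono Set.Icc_subset_Ici_self
    obtain ⟨η, hη, hv⟩ := Metric.uniformContinuousOn_iff.1
      (isCompact_Icc.uniformContinuousOn_of_continuous cX) δ hδ
    refine ⟨η, hη, fun a b ha hab hb hη' => ?_⟩
    have hb' := ha.trans hab
    set A := cj (U b) (be r (l b)) with hA
    obtain ⟨i1, i2⟩ := hX.tr A a b ha hab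
    have k1 : (A * X b).trace.re = F r (l b) := by
      rw [xe b hb', hA, cj_mul (hU b), cj_tr (hU b), ofReal_re, F_eq]
    have k2 : (A * X a).trace.re ≤ F r (l a) := by
      rw [xe a ha]; exact ky hr (hU a) (hU b) _ _ (hl a)
    have bA : ∀ i j, ‖A i j‖ ≤ max B BH := fun i j => by
      refine le_max_of_le_left ?_
      have uu := entry_norm_bound_of_unitary (mem_unitaryGroup_iff.2 (hU b))
      rw [hA, cj, mul_apply]
      refine (norm_sum_le _ _).trans (sum_le_sum fun k _ => ?_)
      rw [dg, mul_diagonal, conjTranspose_apply, norm_mul, norm_mul, norm_star, norm_real,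
        Real.norm_of_nonneg (be_bd hr _ k).1]
      have := be_bd hr (l b) k
      calc _ ≤ 1 * bw r k * 1 := by gcongr; exacts [by linarith, this.1, uu _ _, this.2, uu _ _]
        _ = _ := by ring
    have k3 : ∫ u in a..b, (A * Lind (H u) L (X u)).trace.re ≤
        ∫ _u in a..b, (-(c / (B + 1) * F r (l b)) + ε) := by
      refine intervalIntegral.integral_mono_on hab i1 intervalIntegrable_const fun u hu' => ?_
      have e : X u = X b + (X u - X b) := by abel
      rw [e, lind_add, mul_add, trace_add, add_re]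
      refine add_le_add ?_ (hu _ _ _ bA (fun i j => le_max_of_le_right
        (hBH u (hs.trans (ha.trans hu'.1)) (hu'.2.trans hb) i j)) fun i j => ?_)
      · rw [xe b hb', hA, tr_lind (hU b)]
        have dd := decay c r hc hr (l b) (hl b) (z b hb') (Nn L (U b))
          (fun a b => sum_nonneg fun _ _ => normSq_nonneg _) (hN _ (hU b)).1 (hN _ (hU b)).2
        rw [← hB] at dd
        set S := ∑ a, ∑ b', Nn L (U b) a b' * l b b' * (be r (l b) a - be r (l b) b')
        have cF := mul_nonneg hc.le (F0 b)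
        have S0 : S ≤ 0 := by
          by_contra hS
          push Not at hS
          rcases isEmpty_or_nonempty (Fin d) with hd | ⟨⟨i⟩⟩
          · simp [S] at hS
          · have : 1 ≤ B := (bw_ge hr i).trans (single_le_sum (f := fun i => bw r i)
              (fun i _ => by linarith [bw_ge hr i]) (mem_univ i))
            nlinarith
        rw [div_mul_eq_mul_div, ← neg_div, le_div_iff₀ (by positivity)]
        linarith
      · have := hv u ⟨ha.trans hu'.1, hu'.2.trans hb⟩ b ⟨hb', hb⟩ (by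
          rw [Real.dist_eq, abs_lt]; constructor <;> linarith [hu'.1, hu'.2])
        have h1 := ((dist_le_pi_dist (X' u i) (X' b i) j).trans (dist_le_pi_dist (X' u) (X' b) i)).trans
          this.le
        rwa [dist_eq_norm] at h1
    rw [intervalIntegral.integral_const, smul_eq_mul] at k3
    linarith
  have n1 : tn (X t) ≤ 2 * F r (l t) := by
    rw [te t ht]
    have : ∑ i, |l t i| = 2 * ∑ i, max (l t i) 0 - ∑ i, l t i := by
      rw [mul_sum, ← sum_sub_distrib]
      refine sum_congr rfl fun i _ => ?_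
      rcases le_total 0 (l t i) with h | h
      · rw [abs_of_nonneg h, max_eq_left h]; ring
      · rw [abs_of_nonpos h, max_eq_right h]; ring
    rw [this, z t ht, sub_zero]
    exact mul_le_mul_of_nonneg_left (sum_le_sum fun i _ =>
      le_mul_of_one_le_left (le_max_right _ _) (bw_ge hr i)) (by norm_num)
  have n2 : F r (l s) ≤ (B + 1) * tn (X s) := by
    rw [te s le_rfl, F, mul_sum]
    refine sum_le_sum fun i _ => mul_le_mul ?_ (max_le (le_abs_self _) (abs_nonneg _))
      (le_max_right _ _) (by positivity)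
    have := single_le_sum (f := fun i => bw r i) (fun i _ => by linarith [bw_ge hr i]) (mem_univ i)
    linarith
  have := mul_le_mul_of_nonneg_left n2 (Real.exp_pos (-(c / (B + 1) / 2 * (t - s)))).le
  rw [neg_mul]
  linarith

lemma tn_zero {X : Mat d} (h : X.IsHermitian) (h0 : tn X ≤ 0) : X = 0 := by
  rw [tn, dif_pos h] at h0
  have := (sum_eq_zero_iff_of_nonneg fun i _ => abs_nonneg (h.eigenvalues i)).1
    (le_antisymm h0 (sum_nonneg fun i _ => abs_nonneg _))
  exact h.eigenvalues_eq_zero_iff.1 (funext fun i => abs_eq_zero.1 (this i (mem_univ _)))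

theorem result (d m : ℕ) (L : Fin m → Mat d) (hL : Algebra.adjoin ℂ (Set.range L) = ⊤) :
    ∃ K γ : ℝ, 0 < K ∧ 0 < γ ∧ ∀ H : ℝ → Mat d, Drive H → ∀ s, 0 ≤ s → ∀ ρ σ : ℝ → Mat d,
      Sol H L s ρ → Sol H L s σ → IsState (ρ s) → IsState (σ s) → ∀ t, s ≤ t →
        (ρ t - σ t).IsHermitian ∧
        tn (ρ t - σ t) ≤ K * Real.exp (-γ * (t - s)) * tn (ρ s - σ s) := by
  obtain ⟨K, γ, hK, hγ, M⟩ := main L hL
  refine ⟨K, γ, hK, hγ, fun H hH s hs ρ σ h1 h2 r1 r2 => ?_⟩
  have hX : Sol H L s fun t => ρ t - σ t := by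
    simpa [sub_eq_add_neg] using h1.comb h2 1 (-1)
  have hs0 : (ρ s - σ s).IsHermitian := r1.1.isHermitian.sub r2.1.isHermitian
  have hh : ∀ t, s ≤ t → (ρ t - σ t).IsHermitian := by
    intro t ht
    have zh : ∀ Y : Mat d, (I • Y + (-I) • Yᴴ).IsHermitian := fun Y => by
      simp [IsHermitian, conjTranspose_add, conjTranspose_smul, add_comm]
    have z0 : I • (ρ s - σ s) + (-I) • (ρ s - σ s)ᴴ = 0 := by rw [hs0.eq]; simp
    have := M H hH s hs _ (hX.comb (hX.ct hH.1) I (-I)) (fun u _ => zh _) (by simp only [z0]; simp) t ht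
    simp only [z0] at this
    have t0 : tn (0 : Mat d) = 0 := by
      rw [tn, dif_pos isHermitian_zero]
      simp [isHermitian_zero.eigenvalues_eq_zero_iff.2 rfl]
    rw [t0, mul_zero] at this
    have e := tn_zero (zh _) this
    rw [neg_smul, ← sub_eq_add_neg, ← smul_sub, smul_eq_zero, sub_eq_zero] at e
    exact (e.resolve_left I_ne_zero).symm
  exact fun t ht => ⟨hh t ht, M H hH s hs _ hX hh (by simp [trace_sub, r1.2, r2.2]) t ht⟩

end Pool.Agent.Results.MP_4e5d1f_mp.Contract
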